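import Pool.Agent.Lib.MP_4f6fd6_an.Bridge

/-!
# The two capacities of a de Branges-Rovnyak space need not be comparable

The function `b` is `(1 + z) / 2` times the Blaschke product with zeros `1 - (1/4) ^ ((n + 2) ^ 2)`
and the sets are the arcs `{exp (i x) : d_n < x < 5 d_n}`, `d_n = (1/4) ^ ((n + 2) ^ 2)`.
-/

open MeasureTheory AddCircle Filter
open scoped ENNReal Topology

namespace Pool.Agent.Results.MP_4f6fd6_an.CapacitiesNotComparable

open Pool.Agent.MP_4f6fd6_an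

/-- the function `b` has modulus less than one almost everywhere -/
theorem norm_bS_lt_one : ∀ᵐ t ∂(haarAddCircle : Measure (AddCircle (1 : ℝ))),
    ‖bS.inf t‖ < 1 := by
  filter_upwards [norm_bS_ae, ae_zf_ne] with t h2 h3
  rw [h2]
  have h4 : ‖1 + zf t‖ ^ 2 + ‖1 - zf t‖ ^ 2 = 4 := by
    have := parallelogram_law_with_norm ℂ (1 : ℂ) (zf t)
    rw [norm_zf, norm_one] at this
    nlinarith
  have h5 : ‖(1 + zf t) / 2‖ = ‖1 + zf t‖ / 2 := by rw [norm_div]; simp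
  rw [norm_sub_rev (1 : ℂ)] at h4
  have h6 : 0 < ‖zf t - 1‖ := norm_pos_iff.2 (sub_ne_zero.2 h3)
  have h7 : 0 ≤ ‖1 + zf t‖ := norm_nonneg _
  rw [h5]
  nlinarith

/-- The circle is `ℝ / ℤ`, `t` standing for `exp (2 π i t)`, with its normalised Lebesgue measure
`haarAddCircle`. `H2` is the Hardy space, through boundary values. There is a non-extreme `b` in
the unit ball of `H^∞`, of norm one, with the following property. Let `c₁` and `c₂` be the
capacities `c_{b,1}` and `c_{b,2}`. There are open sets `E n` with `0 < c₁ (E n)`,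
`c₂ (E n) < ∞` such that `c₂ (E n) / c₁ (E n)` tends to infinity. -/
theorem result :
    ∃ H2 : Submodule ℂ (Lp ℂ 2 (haarAddCircle : Measure (AddCircle (1 : ℝ)))),
      (∀ f, f ∈ H2 ↔ ∀ n : ℤ, n < 0 → fourierCoeff f n = 0) ∧
    ∃ b : Lp ℂ ∞ (haarAddCircle : Measure (AddCircle (1 : ℝ))),
      (∀ n : ℤ, n < 0 → fourierCoeff b n = 0) ∧ ‖b‖ = 1 ∧
      (∀ᵐ t ∂(haarAddCircle : Measure (AddCircle (1 : ℝ))), ‖b t‖ < 1) ∧
      Integrable (fun t => Real.log (1 - ‖b t‖)) haarAddCircle ∧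
    ∃ R : H2 →L[ℂ] H2, IsRootDefect H2 b R ∧
    ∃ c₁ c₂ : Set (AddCircle (1 : ℝ)) → ℝ≥0∞,
      (∀ E, c₁ E = infRangeNormSq R fun f : H2 =>
        AENear haarAddCircle (fun x => 1 ≤ x) E (f : Lp ℂ 2 haarAddCircle)) ∧
      (∀ E, c₂ E = infRangeNormSq R fun f : H2 =>
        AENear haarAddCircle (fun x => x = 1) E (f : Lp ℂ 2 haarAddCircle)) ∧
    ∃ E : ℕ → Set (AddCircle (1 : ℝ)),
      (∀ n, IsOpen (E n) ∧ 0 < c₁ (E n) ∧ c₂ (E n) < ∞) ∧
      Tendsto (fun n => c₂ (E n) / c₁ (E n)) atTop (𝓝 ∞) :=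
  ⟨H2, fun _ => mem_H2, bS.inf, bS_isHinf, norm_bS, norm_bS_lt_one, integrable_log, defect bS.inf,
    isRootDefect_defect bS, c₁ bS.inf, c₂ bS.inf, c₁_eq bS.inf, c₂_eq bS.inf, En,
    fun n => ⟨isOpen_En n, c₁_pos bS n, c₂_lt_top (En n)⟩, tendsto_ratio⟩

end Pool.Agent.Results.MP_4f6fd6_an.CapacitiesNotComparable
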